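import Pool.Agent.YTDM.P52

/-!
# The Yau-Tian-Donaldson conjecture for metrics of constant scalar curvature is false

The definitions are in `Pool/Agent/YTDA/FinDefs.lean` (and `hess`, `scal` in
`Pool/Agent/YTDA/Defs.lean`): `LineBundle` (holomorphic line bundles given by transition functions),
`NoVectorField`, `LineBundle.IsAmple`, `LineBundle.KMetric` (smooth hermitian metrics on `L` with
positive curvature, that is Kähler metrics in `c₁(L)`), `LineBundle.KMetric.IsCsc`,
`LineBundle.TestConfiguration`, `LineBundle.KStable`.
-/

set_option autoImplicit false

namespace Pool.Agent.Results.MP_9dce12_gt.Disproof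

open Pool.Agent.YTDA Manifold ContDiff

/-- There are a compact connected complex manifold `M` of dimension four without non-zero
holomorphic vector fields and an ample line bundle `L` on `M` such that `(M, L)` is K-stable, but
there is no Kähler metric of constant scalar curvature in `c₁(L)` (which does contain Kähler
metrics). -/
theorem result : ∃ (M : Type) (_ : TopologicalSpace M) (_ : ChartedSpace (E 4) M)
    (_ : IsManifold 𝓘(ℂ, E 4) ω M) (L : LineBundle 4 M),
    CompactSpace M ∧ T2Space M ∧ ConnectedSpace M ∧ NoVectorField 4 M ∧
    L.IsAmple ∧ L.KStable ∧ Nonempty L.KMetric ∧ ∀ m : L.KMetric, ¬ m.IsCsc :=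
  main

end Pool.Agent.Results.MP_9dce12_gt.Disproof
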